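import Pool.Agent.H857.SG.Core
import Pool.Agent.H857.WT.Asm

/-!
# Abelian varieties over finite fields with generic real Frobenius fields: assembly
-/

set_option autoImplicit false

namespace Pool.Agent.H857.SG

open Module Polynomial Pool.Agent.W521.Descent Pool.Agent.W521.Density Pool.Agent.W521.Count
  Pool.Agent.X297.UB Pool.Agent.H857.PB Pool.Agent.H857.PA Pool.Agent.H857.HK Pool.Agent.H857.EF
  Pool.Agent.H857.WT

lemma Kills.mul {g m : ℕ} (h : Kills g m) {n : ℕ} (hn : 0 < n) : Kills g (n * m) := by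
  refine ⟨Nat.mul_pos hn h.1, fun q hq f hf y z hy hz hyz => ?_⟩
  rw [mul_comm n m, pow_mul, pow_mul, h.2 q hq f hf y z hy hz hyz]

/-- The description of the exotic classes in the symmetric case. -/
theorem exotic_structure (h1 : B1) (h3 : B3) (h4 : B4) (h5 : B5) (s3 : S3) (m : ℕ) (hm : 3 ≤ m)
    {q : ℕ} (hq : 1 < q) {f : ℤ[X]} (hf : f ∈ weilPolys q (2 * m))
    (hs : HasSymmetricGroup q (2 * m) f) (he : HasExotic q f) :
    OfWeilType q m f ∧ ∃ β : Fin (2 * m) → QB, Roots q (2 * m) f β ∧ Weil q (2 * m) β := by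
  obtain ⟨α, hα, hsym⟩ := h1 q (2 * m) f (by omega) (by omega) hf hs
  obtain ⟨L, hL0, hLr, hLp, hLpair⟩ := h5 q (2 * m) hq f hf he
  have hroot : ∀ z : ℂ, aeval z f = 0 → ∃ i, z = (α i : ℂ) ∨ z = q / (α i : ℂ) := by
    intro z hz
    have h0 : (f.map (Int.castRingHom ℂ)).eval z = 0 := by
      rw [eval_map]
      exact hz
    rw [hα.map, eval_prod, Finset.prod_eq_zero_iff] at h0
    obtain ⟨i, -, hi⟩ := h0
    refine ⟨i, ?_⟩
    rw [eval_mul, mul_eq_zero] at hi
    rcases hi with hi | hi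
    · left
      rw [eval_sub, eval_X, eval_C, sub_eq_zero] at hi
      exact hi
    · right
      rw [eval_sub, eval_X, eval_C, sub_eq_zero] at hi
      exact hi
  obtain ⟨e, he0, her, hev, hep, het⟩ := s3 (Fin (2 * m)) q hq (fun i => (α i : ℂ)) hα.norm L hL0
    (fun z hz => hroot z (hLr z hz)) hLp hLpair
  obtain ⟨β, hβ, hw⟩ := h3 q (2 * m) f α e hq (by omega) hα hsym ⟨he0, her, hev, hep, het⟩
  have hR : Roots q (2 * m) f β := by
    refine ⟨hw.norm, ?_⟩
    rw [hα.map]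
    refine Finset.prod_congr rfl fun i _ => ?_
    rcases hβ i with h | h
    · rw [h]
    · have h0 : (α i : ℂ) ≠ 0 := by
        intro h0
        have := hα.norm i
        rw [h0, norm_zero, zero_pow two_ne_zero] at this
        exact (by omega : q ≠ 0) (by exact_mod_cast this.symm)
      have hq0 : (q : ℂ) ≠ 0 := by exact_mod_cast (by omega : q ≠ 0)
      have h2 : (β i : ℂ) = (q : ℂ) / (α i : ℂ) := by
        rw [h]
        push_cast
        rfl
      rw [h2, div_div_cancel₀ hq0]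
      exact mul_comm _ _
  exact ⟨h4 q m f β hq (by omega) hR hw, β, hR, hw⟩

/-- The lower bound. -/
theorem lowerC (h3 : W3) (h8 : W8) (h9 : W9) (h10 : W10) (h11 : W11) (h12 : W12) (h13 : W13)
    (h14 : W14) (h16 : W16) (h1r : B1r) (h9e : B9e) (s18 : S18) (k : ℕ) (hk : 2 ≤ k)
    (hM : ManyC k) : ∃ C : ℝ, 0 < C ∧
    ∀ (p : ℕ) [Fact p.Prime] (a : ℕ), 0 < a → C < (p : ℝ) ^ a →
      Real.sqrt ((p : ℝ) ^ a) ^ order (k + 1) ≤
        C * ({f ∈ newtonWeil p a (2 * (k + 1)) | HasSymmetricGroup (p ^ a) (2 * (k + 1)) f ∧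
          IsGood (p ^ a) (k + 1) f ∧ HasExotic (p ^ a) f}.ncard : ℝ) := by
  classical
  obtain ⟨C, hC0, h⟩ := hM
  refine ⟨C * 2 ^ (2 * (2 * k + 2)), by positivity, fun p _ a ha hCq => ?_⟩
  have hp : p.Prime := Fact.out
  have hq : 0 < p ^ a := pow_pos hp.pos a
  have hq1 : 1 < p ^ a := Nat.one_lt_pow ha.ne' hp.one_lt
  have hC1 : C ≤ C * 2 ^ (2 * (2 * k + 2)) :=
    le_mul_of_one_le_right hC0.le (one_le_pow₀ (by norm_num))
  obtain ⟨S, hS1, hS2, hS3⟩ := h p a ha (hC1.trans_lt hCq)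
  set E := {f ∈ newtonWeil p a (2 * (k + 1)) | HasSymmetricGroup (p ^ a) (2 * (k + 1)) f ∧
    IsGood (p ^ a) (k + 1) f ∧ HasExotic (p ^ a) f} with hE
  have hEfin : E.Finite := newtonWeil_finite.subset fun f hf => hf.1
  have key : ∀ t ∈ S, ∃ (f : ℤ[X]) (z : Fin (2 * k + 2) → QB),
      IsNorm k (p ^ a) t.1 t.2.1 t.2.2.1 t.2.2.2 f z ∧ f ∈ E := by
    intro t ht
    obtain ⟨hd, hs, hb, hA, hB, hCC⟩ := hS2 t ht
    obtain ⟨f, z, hn, hw, hc⟩ := h3 k (p ^ a) t.1 t.2.1 t.2.2.1 t.2.2.2 hq hs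
    have hcop : IsCoprime (f.coeff (2 * k + 2)) ((p ^ a : ℕ) : ℤ) := by
      have h0 : IsCoprime (f.coeff (2 * k + 2)) (p : ℤ) := by
        have hpp : Prime (p : ℤ) := Nat.prime_iff_prime_int.1 hp
        rw [isCoprime_comm, hpp.coprime_iff_not_dvd]
        intro h1
        apply hb
        have h2 : (p : ℤ) ∣ f.coeff (2 * k + 2) - t.2.2.2 ^ 2 := by
          refine dvd_trans ?_ hc
          push_cast
          exact dvd_pow_self _ ha.ne'
        have h4 : (p : ℤ) ∣ t.2.2.2 ^ 2 := by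
          have h5 := dvd_sub h1 h2
          rwa [sub_sub_cancel] at h5
        exact hpp.dvd_of_dvd_pow h4
      push_cast
      exact h0.pow_right
    have hgen : Gen k (p ^ a) z :=
      h8 k (p ^ a) _ _ _ _ f z (by omega) hq1 hd hn hw hcop hA hB
    have hk1 : 1 ≤ k := by omega
    have hroot : ∀ i, aeval (z i : ℂ) f = 0 := by
      intro i
      have h1 : (hC k (p ^ a) t.1 t.2.1 t.2.2.1 t.2.2.2).eval (z i : ℂ) = 0 := by
        rw [← hn.prod, eval_prod]
        exact Finset.prod_eq_zero (Finset.mem_univ i) (by simp)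
      rw [aeval_def, eval₂_eq_eval_map]
      change eval (z i : ℂ) (f.map (Int.castRingHom ℂ)) = 0
      rw [hn.map, eval_mul, h1, zero_mul]
    have hz0 : ∀ i, (z i : ℂ) ≠ 0 := by
      intro i h0
      have := hgen.norm i
      rw [h0, norm_zero, zero_pow two_ne_zero] at this
      exact hq.ne' (by exact_mod_cast this.symm)
    have hconj : ∀ i, (starRingEnd ℂ) (z i : ℂ) = ((p ^ a : ℕ) : ℂ) / (z i : ℂ) := by
      intro i
      rw [eq_div_iff (hz0 i), mul_comm, Complex.mul_conj, Complex.normSq_eq_norm_sq, hgen.norm i]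
      push_cast
      rfl
    have hR : Roots (p ^ a) (2 * k + 2) f z := by
      refine ⟨hgen.norm, ?_⟩
      rw [hn.map, ← hn.prod, Polynomial.map_prod, ← Finset.prod_mul_distrib]
      refine Finset.prod_congr rfl fun i _ => ?_
      rw [Polynomial.map_sub, map_X, map_C, hconj]
    refine ⟨f, z, hn, ?_, ?_, ?_, ?_⟩
    · exact ordinary_mem ha ⟨hw, hcop⟩
    · exact h1r (p ^ a) (2 * k + 2) f z hq (by omega) hw hR
        (h9e k (p ^ a) _ _ _ _ f z hk hq1 hd hn hA hB hCC hgen)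
    · have hrel := h12 k (p ^ a) _ _ _ _ f z hk1 hq1 hd hn hw hgen
      exact ⟨hcop, h9 k (p ^ a) _ _ _ _ f z hk1 hq1 hd hn hw hgen,
        h10 k (p ^ a) _ _ _ _ f z hk1 hq1 hd hn hw hgen, h11 k (p ^ a) f z hk1 hq1 hroot hgen,
        h13 (k + 1) (p ^ a) f (by omega) hq1 hrel, h14 (k + 1) (p ^ a) f (by omega) hq1 hrel⟩
    · refine s18 (p ^ a) hq1 f hw.2.2.2 ⟨List.ofFn fun i => (z i : ℂ), ?_, ?_, ⟨1, one_pos,
        ((k + 1 : ℕ) : ℤ), ?_⟩, ?_⟩
      · intro h0
        have := congrArg List.length h0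
        simp at this
      · intro w hw
        rw [List.mem_ofFn] at hw
        obtain ⟨i, rfl⟩ := hw
        exact hroot i
      · rw [List.prod_ofFn, hgen.prod, pow_one, Nat.cast_one, mul_one, zpow_natCast]
      · rw [List.pairwise_ofFn]
        intro i j hij hrel
        obtain ⟨N, hN, hN2⟩ := hrel
        have hne : i ≠ j := ne_of_lt hij
        have hrz : RelZ (p ^ a) (fun i => (z i : ℂ)) (Pi.single i 1 + Pi.single j 1) := by
          refine ⟨N, hN, ?_⟩
          have e1 : ∏ n, (z n : ℂ) ^ (2 * (Pi.single i 1 + Pi.single j 1 : Fin (2 * k + 2) → ℤ) n)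
              = ((z i : ℂ) * (z j : ℂ)) ^ 2 := by
            rw [← Finset.mul_prod_erase Finset.univ _ (Finset.mem_univ i),
              ← Finset.mul_prod_erase (Finset.univ.erase i) _
                (Finset.mem_erase.2 ⟨hne.symm, Finset.mem_univ j⟩),
              Finset.prod_eq_one]
            · simp only [Pi.add_apply, Pi.single_eq_same, Pi.single_eq_of_ne hne,
                Pi.single_eq_of_ne hne.symm]
              norm_num
              rw [mul_pow]
            · intro n hn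
              rw [Finset.mem_erase, Finset.mem_erase] at hn
              simp only [Pi.add_apply, Pi.single_eq_of_ne hn.1, Pi.single_eq_of_ne hn.2.1]
              norm_num
          have e2 : ∑ n, (Pi.single i 1 + Pi.single j 1 : Fin (2 * k + 2) → ℤ) n = 2 := by
            simp [Finset.sum_add_distrib]
          rw [e1, e2, ← pow_mul, mul_comm 2 N, pow_mul, hN2, ← pow_mul, mul_comm N 2, pow_mul]
          norm_cast
        have h5 := hgen.rel _ hrz
        obtain ⟨n, hn⟩ : ∃ n : Fin (2 * k + 2), n ≠ i ∧ n ≠ j := by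
          by_contra hcon
          push Not at hcon
          have hsub : (Finset.univ : Finset (Fin (2 * k + 2))) ⊆ {i, j} := by
            intro n _
            rw [Finset.mem_insert, Finset.mem_singleton]
            by_cases h : n = i
            · exact Or.inl h
            · exact Or.inr (hcon n h)
          have := Finset.card_le_card hsub
          rw [Finset.card_univ, Fintype.card_fin] at this
          have h2 : ({i, j} : Finset (Fin (2 * k + 2))).card ≤ 2 := Finset.card_le_two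
          omega
        have h6 := h5 i n
        simp only [Pi.add_apply, Pi.single_eq_same, Pi.single_eq_of_ne hne,
          Pi.single_eq_of_ne hn.1, Pi.single_eq_of_ne hn.2] at h6
        norm_num at h6
  choose! F z hF using key
  have hcard : S.card ≤ 2 ^ (2 * (2 * k + 2)) * hEfin.toFinset.card := by
    refine Finset.card_le_mul_card_image_of_maps_to (f := F) (fun t ht => ?_) _ fun f hf => ?_
    · rw [Set.Finite.mem_toFinset]
      exact (hF t ht).2
    · rw [Set.Finite.mem_toFinset] at hf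
      obtain ⟨hfin, hle⟩ := h16 k f (by
        have h1 := hf.1.1.2.1
        rw [h1]
        ring)
      refine le_trans ?_ hle
      rw [← Set.ncard_coe_finset]
      refine Set.ncard_le_ncard_of_injOn (fun t : ℕ × (Fin k → ℤ) × (Fin k → ℤ) × ℤ =>
        hC k (p ^ a) t.1 t.2.1 t.2.2.1 t.2.2.2) ?_ ?_ hfin
      · intro t ht
        rw [Finset.mem_coe, Finset.mem_filter] at ht
        have hn := (hF t ht.1).1
        refine ⟨?_, ?_⟩
        · rw [← hn.prod]
          exact monic_prod_of_monic _ _ fun i _ => monic_X_sub_C _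
        · rw [← ht.2, hn.map]
          exact dvd_mul_right _ _
      · intro t ht t' ht' htt
        rw [Finset.mem_coe, Finset.mem_filter] at ht ht'
        exact hS3 ht.1 ht'.1 htt
  have hE2 : E.ncard = hEfin.toFinset.card := Set.ncard_eq_toFinset_card _ hEfin
  rw [← hE2] at hcard
  have hcard' : (S.card : ℝ) ≤ 2 ^ (2 * (2 * k + 2)) * (E.ncard : ℝ) := by exact_mod_cast hcard
  calc Real.sqrt ((p : ℝ) ^ a) ^ order (k + 1) ≤ C * (S.card : ℝ) := hS1
    _ ≤ C * (2 ^ (2 * (2 * k + 2)) * (E.ncard : ℝ)) := mul_le_mul_of_nonneg_left hcard' hC0.le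
    _ = C * 2 ^ (2 * (2 * k + 2)) * (E.ncard : ℝ) := by ring

/-- The main theorem. -/
theorem main (h1 : B1) (h1r : B1r) (h3 : B3) (h4 : B4) (h5 : B5) (h6 : B6) (h7a : B7a)
    (h7b : B7b) (h7c : B7c) (h8 : B8) (h9c : B9c) (h9e : B9e) (s3 : S3) (s13 : S13) (s17 : S17)
    (s18 : S18) (w3 : W3) (w8 : W8) (w9 : W9) (w10 : W10) (w11 : W11) (w12 : W12) (w13 : W13)
    (w14 : W14) (w16 : W16) (w17 : W17) (w18 : W18) (m : ℕ) (hm : 3 ≤ m) :
    ∃ C : ℝ, 0 < C ∧ ∃ M : ℕ, 0 < M ∧ ∀ (p : ℕ) [Fact p.Prime] (a : ℕ), 0 < a →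
      ((newtonWeil p a (2 * m)).Finite ∧
        Real.sqrt ((p : ℝ) ^ a) ^ (m * (2 * m + 1)) ≤ C * ((newtonWeil p a (2 * m)).ncard : ℝ) ∧
        ((newtonWeil p a (2 * m)).ncard : ℝ) ≤ C * Real.sqrt ((p : ℝ) ^ a) ^ (m * (2 * m + 1)) ∧
        ({f ∈ newtonWeil p a (2 * m) | ¬ HasSymmetricGroup (p ^ a) (2 * m) f}.ncard : ℝ) ≤
          C * (Real.log ((p : ℝ) ^ a) * ((p : ℝ) ^ a) ^ (-(1 / 6) : ℝ)) *
            ((newtonWeil p a (2 * m)).ncard : ℝ)) ∧
      (∀ f ∈ newtonWeil p a (2 * m), HasSymmetricGroup (p ^ a) (2 * m) f →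
        ¬ HasExotic (p ^ a) f → ∃ g : ℤ[X], IsPowerPoly f M g ∧ PolesOfPowers ((p ^ a) ^ M) g ∧
          TateForPowers ((p ^ a) ^ M) g) ∧
      (∀ f ∈ newtonWeil p a (2 * m), HasSymmetricGroup (p ^ a) (2 * m) f →
        HasExotic (p ^ a) f → OfWeilType (p ^ a) m f ∧ ∃ g : ℤ[X], IsPowerPoly f M g ∧
          GeneratedInCodim m ((p ^ a) ^ M) g ∧ TateFromCodim m ((p ^ a) ^ M) g) ∧
      ({f ∈ newtonWeil p a (2 * m) | HasSymmetricGroup (p ^ a) (2 * m) f ∧
        HasExotic (p ^ a) f}.ncard : ℝ) ≤ C * Real.sqrt ((p : ℝ) ^ a) ^ order m ∧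
      (C < (p : ℝ) ^ a → Real.sqrt ((p : ℝ) ^ a) ^ order m ≤
        C * ({f ∈ newtonWeil p a (2 * m) | HasSymmetricGroup (p ^ a) (2 * m) f ∧
          IsGood (p ^ a) m f ∧ HasExotic (p ^ a) f}.ncard : ℝ)) := by
  classical
  obtain ⟨k, rfl⟩ : ∃ k, m = k + 1 := ⟨m - 1, by omega⟩
  obtain ⟨C₁, hC₁, hu⟩ := upper w17 w18 (k + 1) (by omega)
  obtain ⟨C₂, hC₂, hl⟩ := lowerC w3 w8 w9 w10 w11 w12 w13 w14 w16 h1r h9e s18 k (by omega)
    (h9c k (by omega))
  obtain ⟨m₀, hm₀⟩ := h7a (2 * (k + 1))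
  have hkill : Kills (2 * (k + 1)) (12 * m₀) := hm₀.mul (by norm_num)
  obtain ⟨C₅, hC₅, hsym⟩ := h8 (2 * (k + 1)) (by omega)
  set g := 2 * (k + 1) with hg
  have htot : tot g = (k + 1) * (2 * (k + 1) + 1) := by
    rw [tot, hg]
    have : 2 * (k + 1) * (2 * (k + 1) + 1) = 2 * ((k + 1) * (2 * (k + 1) + 1)) := by ring
    rw [this]
    exact Nat.mul_div_cancel_left _ (by norm_num)
  set C₃ : ℝ := 4 * 2 ^ (g ^ 2) with hC₃
  set C₄ : ℝ := (3 * (4 : ℝ) ^ g) ^ g with hC₄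
  have hC₃0 : 0 < C₃ := by positivity
  have hC₄0 : 0 < C₄ := by positivity
  have h35 : 0 < C₅ * C₃ := by positivity
  refine ⟨C₁ + C₂ + C₃ + C₄ + C₅ * C₃, by positivity, 12 * m₀, hkill.1, fun p _ a ha => ?_⟩
  have hp : p.Prime := Fact.out
  have hq : 0 < p ^ a := pow_pos hp.pos a
  have hq1 : 1 < p ^ a := Nat.one_lt_pow ha.ne' hp.one_lt
  have hlow := newtonWeil_lower (p := p) ha g
  rw [htot] at hlow
  have hlog : 0 ≤ Real.log ((p : ℝ) ^ a) := Real.log_nonneg (by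
    have : (1 : ℝ) < (p ^ a : ℕ) := by exact_mod_cast hq1
    push_cast at this
    exact this.le)
  have hrate : 0 ≤ Real.log ((p : ℝ) ^ a) * ((p : ℝ) ^ a) ^ (-(1 / 6) : ℝ) :=
    mul_nonneg hlog (Real.rpow_nonneg (by positivity) _)
  have hn0 : (0 : ℝ) ≤ ((newtonWeil p a g).ncard : ℝ) := Nat.cast_nonneg _
  refine ⟨⟨newtonWeil_finite, ?_, ?_, ?_⟩, ?_, ?_, ?_, fun hqC => ?_⟩
  · refine hlow.trans (mul_le_mul_of_nonneg_right ?_ hn0)
    linarith
  · have h1 := Pool.Agent.H740.EF.newtonWeil_upper (p := p) (a := a) g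
    rw [htot] at h1
    refine h1.trans (mul_le_mul_of_nonneg_right ?_ (by positivity))
    linarith
  · have h1 := hsym p a ha
    rw [htot] at h1
    calc _ ≤ C₅ * (Real.log ((p : ℝ) ^ a) * ((p : ℝ) ^ a) ^ (-(1 / 6) : ℝ)) *
          Real.sqrt ((p : ℝ) ^ a) ^ ((k + 1) * (2 * (k + 1) + 1)) := h1
      _ ≤ C₅ * (Real.log ((p : ℝ) ^ a) * ((p : ℝ) ^ a) ^ (-(1 / 6) : ℝ)) *
          (C₃ * ((newtonWeil p a g).ncard : ℝ)) :=
        mul_le_mul_of_nonneg_left hlow (mul_nonneg hC₅.le hrate)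
      _ = (C₅ * C₃) * (Real.log ((p : ℝ) ^ a) * ((p : ℝ) ^ a) ^ (-(1 / 6) : ℝ)) *
          ((newtonWeil p a g).ncard : ℝ) := by ring
      _ ≤ _ := by
        refine mul_le_mul_of_nonneg_right (mul_le_mul_of_nonneg_right ?_ hrate) hn0
        linarith
  · intro f hf _ hex
    have hnl : ¬ ExL (p ^ a) f := fun h => hex (s18 (p ^ a) hq1 f hf.1.2.2.2 h)
    obtain ⟨F, hF⟩ := s13 f (12 * m₀) hf.1.1 hkill.1
    exact ⟨F, hF, h7b (p ^ a) g (12 * m₀) hq1 hkill f hf.1 hnl F hF,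
      s17 ((p ^ a) ^ (12 * m₀)) F (Nat.one_lt_pow hkill.1.ne' hq1)
        (h7c (p ^ a) g (12 * m₀) hq1 hkill f hf.1 hnl F hF)⟩
  · intro f hf hs hex
    obtain ⟨h10, β, hR, hW⟩ := exotic_structure h1 h3 h4 h5 s3 (k + 1) hm hq1 hf.1 hs hex
    obtain ⟨F, hF⟩ := s13 f (12 * m₀) hf.1.1 hkill.1
    have hrel := h6 (p ^ a) (k + 1) (12 * m₀) f F β hq1 (by omega) hkill.1
      (dvd_mul_right _ _) hf.1 hR hW hF
    have hQ : 1 < (p ^ a) ^ (12 * m₀) := Nat.one_lt_pow hkill.1.ne' hq1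
    exact ⟨h10, F, hF, w13 (k + 1) _ F (by omega) hQ hrel, w14 (k + 1) _ F (by omega) hQ hrel⟩
  · have hsub : {f ∈ newtonWeil p a g | HasSymmetricGroup (p ^ a) g f ∧ HasExotic (p ^ a) f} ⊆
        {f ∈ newtonWeil p a g | OfWeilType (p ^ a) (k + 1) f} := by
      rintro f ⟨hf, hs, hex⟩
      exact ⟨hf, (exotic_structure h1 h3 h4 h5 s3 (k + 1) hm hq1 hf.1 hs hex).1⟩
    have h1 := Set.ncard_le_ncard hsub (newtonWeil_finite.subset fun f hf => hf.1)
    have h2 : ({f ∈ newtonWeil p a g | HasSymmetricGroup (p ^ a) g f ∧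
        HasExotic (p ^ a) f}.ncard : ℝ) ≤
        ({f ∈ newtonWeil p a g | OfWeilType (p ^ a) (k + 1) f}.ncard : ℝ) := by exact_mod_cast h1
    refine (h2.trans (hu p a ha)).trans (mul_le_mul_of_nonneg_right ?_ (by positivity))
    linarith
  · refine (hl p a ha (by linarith)).trans (mul_le_mul_of_nonneg_right ?_ (Nat.cast_nonneg _))
    linarith

end Pool.Agent.H857.SG
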