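import Pool.Agent.H857.SG.Defs
import Pool.Agent.H857.WT.Core

/-!
# Abelian varieties over finite fields with generic real Frobenius fields: the list of the statements
-/

set_option autoImplicit false

namespace Pool.Agent.H857.SG

open Module Polynomial Pool.Agent.W521.Descent Pool.Agent.W521.Density Pool.Agent.W521.Count
  Pool.Agent.X297.UB Pool.Agent.H857.PB Pool.Agent.H857.PA Pool.Agent.H857.HK Pool.Agent.H857.EF
  Pool.Agent.H857.WT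

/-- All permutations of the distinct algebraic numbers `θ i` are induced by automorphisms. -/
def Sym {g : ℕ} (θ : Fin g → QB) : Prop :=
  Function.Injective θ ∧ ∀ π : Equiv.Perm (Fin g), ∃ σ : QB ≃ₐ[ℚ] QB, ∀ i, σ (θ i) = θ (π i)

/-- The `α i` and their conjugates `q / α i` are the roots of `f`. -/
structure Roots (q g : ℕ) (f : ℤ[X]) (α : Fin g → QB) : Prop where
  norm : ∀ i, ‖(α i : ℂ)‖ ^ 2 = q
  map : f.map (Int.castRingHom ℂ) =
    ∏ i, ((X - C (α i : ℂ)) * (X - C ((q : ℂ) / (α i : ℂ))))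

/-- A vector of exponents of a relation as it comes from an exotic Tate class. -/
structure Exo {g : ℕ} (R : (Fin g → ℤ) → Prop) (e : Fin g → ℤ) : Prop where
  ne : ∃ i, e i ≠ 0
  rel : R e
  even : Even (∑ i, e i)
  pair : ∀ i j, i ≠ j → e i ≠ 0 → e j ≠ 0 →
    ¬ R (Pi.single i (e i).sign + Pi.single j (e j).sign)
  two : ∀ i, 2 ≤ |e i| → ¬ R (Pi.single i 1)

/-- The roots `β i`, one in each pair of conjugate roots, are permuted by the Galois group, up to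
complex conjugation, and the only relations between them are those with all exponents equal. -/
structure Weil (q g : ℕ) (β : Fin g → QB) : Prop where
  norm : ∀ i, ‖(β i : ℂ)‖ ^ 2 = q
  gal : ∀ σ : QB ≃ₐ[ℚ] QB, (∃ π : Equiv.Perm (Fin g), ∀ i, σ (β i) = β (π i)) ∨
    ∃ π : Equiv.Perm (Fin g), ∀ i, σ (β i) = (q : QB) / β (π i)
  one : RelZ q (fun i => (β i : ℂ)) fun _ => 1
  rel : ∀ e : Fin g → ℤ, RelZ q (fun i => (β i : ℂ)) e → ∃ n : ℤ, ∀ i, e i = n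

/-- `m` is an exponent for the roots of unity `y z / q`, in dimension `g`. -/
def Kills (g m : ℕ) : Prop := 0 < m ∧ ∀ (q : ℕ), 0 < q → ∀ f ∈ weilPolys q g, ∀ y z : ℂ,
  aeval y f = 0 → aeval z f = 0 → PairRel q y z → (y * z) ^ m = (q : ℂ) ^ m

/-- The polynomial `hpoly` is a product of irreducible polynomials of degrees `1`, `2`, `2 k - 1`. -/
def PatC {F : Type} [Field F] (k : ℕ) (q : F) (u v : Fin k → F) (b : F) : Prop :=
  ∃ (c : F) (s r : F[X]), s.Monic ∧ Irreducible s ∧ s.natDegree = 2 ∧ r.Monic ∧ Irreducible r ∧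
    r.natDegree = 2 * k - 1 ∧ hpoly k q u v b = (X - C c) * s * r

/-- There is a prime modulo which `hC` has the pattern `PatC`. -/
def GoodC (k q d : ℕ) (x y : Fin k → ℤ) (b : ℤ) : Prop :=
  ∃ (l : ℕ) (_ : Fact l.Prime) (s : ZMod l), l ≠ 2 ∧ (q : ZMod l) ≠ 0 ∧ s ≠ 0 ∧
    s ^ 2 = -(d : ZMod l) ∧
    PatC k (q : ZMod l) (fun j => (x j : ZMod l) + s * y j) (fun j => (x j : ZMod l) - s * y j) b

/-- There are many good parameters. -/
def ManyC (k : ℕ) : Prop := ∃ C : ℝ, 0 < C ∧ ∀ (p : ℕ) [Fact p.Prime] (a : ℕ), 0 < a →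
  C < (p : ℝ) ^ a → ∃ S : Finset (ℕ × (Fin k → ℤ) × (Fin k → ℤ) × ℤ),
    Real.sqrt ((p : ℝ) ^ a) ^ order (k + 1) ≤ C * (S.card : ℝ) ∧
    (∀ t ∈ S, 0 < t.1 ∧ Small k (p ^ a) t.1 t.2.1 t.2.2.1 t.2.2.2 ∧
      ¬ ((p : ℤ) ∣ t.2.2.2) ∧ GoodA k (p ^ a) t.1 t.2.1 t.2.2.1 t.2.2.2 ∧
      GoodB k (p ^ a) t.1 t.2.1 t.2.2.1 t.2.2.2 ∧ GoodC k (p ^ a) t.1 t.2.1 t.2.2.1 t.2.2.2) ∧
    Set.InjOn (fun t : ℕ × (Fin k → ℤ) × (Fin k → ℤ) × ℤ =>
      hC k (p ^ a) t.1 t.2.1 t.2.2.1 t.2.2.2) S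

/-! ### The statements -/

/-- B1: the roots of the Weil polynomials with symmetric groups. -/
def B1 : Prop := ∀ (q g : ℕ) (f : ℤ[X]), 0 < q → 0 < g → f ∈ weilPolys q g →
  HasSymmetricGroup q g f → ∃ α : Fin g → QB, Roots q g f α ∧
    Sym (fun i => α i + (q : QB) / α i)

/-- B1r: the converse. -/
def B1r : Prop := ∀ (q g : ℕ) (f : ℤ[X]) (α : Fin g → QB), 0 < q → 0 < g → f ∈ weilPolys q g →
  Roots q g f α → Sym (fun i => α i + (q : QB) / α i) → HasSymmetricGroup q g f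

/-- B2: groups of signed permutations. -/
def B2 : Prop := ∀ (g : ℕ), 5 ≤ g → ∀ (G : Set (Equiv.Perm (Fin g) × (Fin g → ℤ)))
  (R : AddSubgroup (Fin g → ℤ)) (e : Fin g → ℤ),
  (∀ t ∈ G, ∀ i, t.2 i = 1 ∨ t.2 i = -1) →
  (∀ t ∈ G, ∀ u ∈ G, (u.1 * t.1, fun i => t.2 i * u.2 (t.1 i)) ∈ G) →
  (∀ π : Equiv.Perm (Fin g), ∃ s, (π, s) ∈ G) →
  (1, fun _ => -1) ∈ G →
  (∀ t ∈ G, ∀ x ∈ R, (fun i => t.2 i * x (t.1 i)) ∈ R) →
  (∀ (n : ℤ) (x : Fin g → ℤ), n ≠ 0 → n • x ∈ R → x ∈ R) → Exo (fun x => x ∈ R) e →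
  ∃ c : Fin g → ℤ, (∀ i, c i = 1 ∨ c i = -1) ∧
    (∀ t ∈ G, (∀ i, t.2 i * c (t.1 i) = c i) ∨ ∀ i, t.2 i * c (t.1 i) = -c i) ∧ c ∈ R ∧
    ∀ x ∈ R, ∃ n : ℤ, x = n • c

/-- B3: exotic relations in the symmetric case. -/
def B3 : Prop := ∀ (q g : ℕ) (f : ℤ[X]) (α : Fin g → QB) (e : Fin g → ℤ), 1 < q → 5 ≤ g →
  Roots q g f α → Sym (fun i => α i + (q : QB) / α i) →
  Exo (fun x => RelZ q (fun i => (α i : ℂ)) x) e →
  ∃ β : Fin g → QB, (∀ i, β i = α i ∨ β i = (q : QB) / α i) ∧ Weil q g β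

/-- B4: exotic relations in the symmetric case come from Weil classes. -/
def B4 : Prop := ∀ (q m : ℕ) (f : ℤ[X]) (β : Fin (2 * m) → QB), 1 < q → 2 ≤ m →
  Roots q (2 * m) f β → Weil q (2 * m) β → OfWeilType q m f

/-- B5: exotic classes and relations. -/
def B5 : Prop := ∀ (q g : ℕ), 1 < q → ∀ f ∈ weilPolys q g, HasExotic q f → ExL q f

/-- B6: the structure of the Tate classes in the exotic case. -/
def B6 : Prop := ∀ (q m M : ℕ) (f g : ℤ[X]) (β : Fin (2 * m) → QB), 1 < q → 2 ≤ m → 0 < M →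
  12 ∣ M → f ∈ weilPolys q (2 * m) → Roots q (2 * m) f β → Weil q (2 * m) β →
  IsPowerPoly f M g → NoRelM m g (q ^ M)

/-- B7a: exponents for the relations between two roots. -/
def B7a : Prop := ∀ g : ℕ, ∃ m : ℕ, Kills g m

/-- B7b: the pole formula for the others. -/
def B7b : Prop := ∀ (q g m : ℕ), 1 < q → Kills g m → ∀ f ∈ weilPolys q g, ¬ ExL q f →
  ∀ F : ℤ[X], IsPowerPoly f m F → PolesOfPowers (q ^ m) F

/-- B7c: the relations for the others. -/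
def B7c : Prop := ∀ (q g m : ℕ), 1 < q → Kills g m → ∀ f ∈ weilPolys q g, ¬ ExL q f →
  ∀ F : ℤ[X], IsPowerPoly f m F →
    Pool.Agent.Y1.CT.NoRel (fun _ : Unit => F) (q ^ m) (fun z => z = 1)

/-- B8a: a criterion for the symmetric group. -/
def B8a : Prop := ∀ (g : ℕ) (h : ℤ[X]), 5 ≤ g → h.Monic → h.natDegree = g →
  (∃ (l : ℕ) (_ : Fact l.Prime), Irreducible (h.map (Int.castRingHom (ZMod l)))) →
  (∃ (l : ℕ) (_ : Fact l.Prime) (c : ZMod l) (r : (ZMod l)[X]), r.Monic ∧ Irreducible r ∧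
    r.natDegree = g - 1 ∧ h.map (Int.castRingHom (ZMod l)) = (X - C c) * r) →
  (∃ (l : ℕ) (_ : Fact l.Prime) (s r : (ZMod l)[X]), s.Monic ∧ Irreducible s ∧
    s.natDegree = 2 ∧ r.Monic ∧ Squarefree r ∧ r.natDegree = g - 2 ∧
    (∀ t : (ZMod l)[X], Irreducible t → t ∣ r → Odd t.natDegree) ∧
    h.map (Int.castRingHom (ZMod l)) = s * r) →
  Irreducible h ∧ Nat.card (h.map (Int.castRingHom ℚ)).Gal = g.factorial

/-- The three events. -/
def EvA (g l : ℕ) (x : Fin g → ZMod l) : Prop := Irreducible (mkPoly g x)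

/-- The second event. -/
def EvB (g l : ℕ) (x : Fin g → ZMod l) : Prop :=
  ∃ (c : ZMod l) (r : (ZMod l)[X]), r.Monic ∧ Irreducible r ∧ r.natDegree = g - 1 ∧
    mkPoly g x = (X - C c) * r

/-- The third event. -/
def EvC (g l : ℕ) (x : Fin g → ZMod l) : Prop :=
  ∃ (s r : (ZMod l)[X]), s.Monic ∧ Irreducible s ∧ s.natDegree = 2 ∧ r.Monic ∧ Squarefree r ∧
    r.natDegree = g - 2 ∧ (∀ t : (ZMod l)[X], Irreducible t → t ∣ r → Odd t.natDegree) ∧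
    mkPoly g x = s * r

/-- B8b: the densities of the events. -/
def B8b : Prop := ∀ g : ℕ, 5 ≤ g → ∃ c : ℝ, 0 < c ∧ ∀ (l : ℕ) [Fact l.Prime], 3 ≤ l →
  c * (l : ℝ) ^ g ≤ ({x : Fin g → ZMod l | EvA g l x}.ncard : ℝ) ∧
  c * (l : ℝ) ^ g ≤ ({x : Fin g → ZMod l | EvB g l x}.ncard : ℝ) ∧
  c * (l : ℝ) ^ g ≤ ({x : Fin g → ZMod l | EvC g l x}.ncard : ℝ)

/-- B8: the Weil polynomials without symmetric groups are few. -/
def B8 : Prop := ∀ g : ℕ, 5 ≤ g → ∃ C : ℝ, 0 < C ∧ ∀ (p : ℕ) [Fact p.Prime] (a : ℕ), 0 < a →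
  ({f ∈ newtonWeil p a g | ¬ HasSymmetricGroup (p ^ a) g f}.ncard : ℝ) ≤
    C * (Real.log ((p : ℝ) ^ a) * ((p : ℝ) ^ a) ^ (-(1 / 6) : ℝ)) *
      Real.sqrt ((p : ℝ) ^ a) ^ tot g

/-- B9a: the pattern `PatC` exists. -/
def B9a : Prop := ∀ (l : ℕ) [Fact l.Prime], 3 ≤ l → ∀ k : ℕ, 2 ≤ k → ∀ q : ZMod l, q ≠ 0 →
  ∃ (u v : Fin k → ZMod l) (b : ZMod l), PatC k q u v b

/-- B9b: the pattern `PatC` exists in a special case. -/
def B9b : Prop := ∀ (l : ℕ) [Fact l.Prime], l = 7 ∨ l = 11 → ∀ q : ZMod l, q ≠ 0 →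
  ∃ (s : ZMod l) (x : Fin 2 → ZMod l) (b : ZMod l), s ≠ 0 ∧
    PatC 2 q (fun j => x j + s * (if (j : ℕ) + 1 = 2 then 1 else 0))
      (fun j => x j - s * (if (j : ℕ) + 1 = 2 then 1 else 0)) b

/-- B9c: there are many good parameters in all dimensions at least six. -/
def B9c : Prop := ∀ k : ℕ, 2 ≤ k → ManyC k

/-- B9d: a Frobenius element with a power which is a transposition. -/
def B9d : Prop := ∀ (k q d : ℕ) (x y : Fin k → ℤ) (b : ℤ) (f : ℤ[X])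
  (z : Fin (2 * k + 2) → QB), 2 ≤ k → 0 < q → 0 < d → IsNorm k q d x y b f z →
  GoodC k q d x y b → ∃ (i j : Fin (2 * k + 2)) (σ : QB ≃ₐ[ℚ] QB), i ≠ j ∧
    ∀ n, σ (z n) = z (Equiv.swap i j n)

/-- B9e: the generic polynomials have symmetric groups. -/
def B9e : Prop := ∀ (k q d : ℕ) (x y : Fin k → ℤ) (b : ℤ) (f : ℤ[X])
  (z : Fin (2 * k + 2) → QB), 2 ≤ k → 1 < q → 0 < d → IsNorm k q d x y b f z →
  GoodA k q d x y b → GoodB k q d x y b → GoodC k q d x y b → Gen k q z →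
  Sym (fun i => z i + (q : QB) / z i)

end Pool.Agent.H857.SG
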