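import Pool.Agent.H857.WT.Defs

/-!
# Abelian varieties over finite fields with generic real Frobenius fields: definitions
-/

set_option autoImplicit false

namespace Pool.Agent.H857.SG

open Module Polynomial Pool.Agent.H857.EF Pool.Agent.H857.HK

/-- The Weil polynomial `f` of degree `2 g` is `X ^ g h (X + q / X)` for an irreducible
polynomial `h` of degree `g` with integral coefficients whose Galois group over the field of rational
numbers has order `g!`. If `f` is the characteristic polynomial of the Frobenius endomorphism `π` of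
the abelian variety `A`, then `h` is the minimal polynomial of `π + q / π`: the real field
`ℚ(π + q / π)` has the degree `dim A`, and the Galois group of its Galois closure is the full
symmetric group. -/
def HasGenericRealField (q g : ℕ) (f : ℤ[X]) : Prop :=
  ∃ h : ℤ[X], h.Monic ∧ h.natDegree = g ∧ Irreducible h ∧
    Nat.card (h.map (Int.castRingHom ℚ)).Gal = g.factorial ∧
    f = ∑ j ∈ Finset.range (g + 1), C (h.coeff j) * ((X ^ 2 + C (q : ℤ)) ^ j * X ^ (g - j))

/-- `x` is a Tate class of codimension `i` for the endomorphism `F` and the number `Q`: it lies in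
`⋀ ^ (2 i) V`, and `F x = Q ^ i x`. -/
def IsTateClass (Q : ℂ) {V : Type} [AddCommGroup V] [Module ℂ V] (F : V →ₗ[ℂ] V) (i : ℕ)
    (x : ExteriorAlgebra ℂ V) : Prop :=
  x ∈ ⋀[ℂ]^(2 * i) V ∧ ExteriorAlgebra.map F x = Q ^ i • x

/-- All Tate classes on the powers of `A`, over all extensions of the field with `Q` elements, are
polynomials in the Tate classes of codimensions one and `m` over the field with `Q` elements: for
every finite dimensional complex vector space `V`, spanned by eigenvectors of the endomorphism `F`
with eigenvalues among the roots of `g`, the Tate classes for `F ^ s` and `Q ^ s` lie in the algebra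
generated by the Tate classes of codimensions one and `m` for `F` and `Q`. -/
def GeneratedByWeilClasses (m Q : ℕ) (g : ℤ[X]) : Prop :=
  ∀ (V : Type) [AddCommGroup V] [Module ℂ V] [FiniteDimensional ℂ V] (F : V →ₗ[ℂ] V),
    IsSpanned g F → ∀ (i s : ℕ) (x : ExteriorAlgebra ℂ V), 0 < s →
      IsTateClass ((Q : ℂ) ^ s) (F ^ s) i x →
      x ∈ Algebra.adjoin ℂ {y | IsTateClass (Q : ℂ) F 1 y ∨ IsTateClass (Q : ℂ) F m y}

/-- The zeta function of the abelian variety `A` over the field with `Q` elements, where `V` is
`H ^ 1 (A)`, hence `⋀ ^ j V` is `H ^ j (A)`, and `F` the Frobenius endomorphism: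
`∏ det (1 - Q ^ (-u) F | ⋀ ^ j V) ^ ((-1) ^ (j + 1))`. -/
noncomputable def zetaFunction (Q : ℝ) {V : Type} [AddCommGroup V] [Module ℂ V] (F : V →ₗ[ℂ] V)
    (u : ℂ) : ℂ :=
  ∏ j ∈ Finset.range (finrank ℂ V + 1),
    (LinearMap.det (1 - (Q : ℂ) ^ (-u) • exteriorPower.map j F)) ^ ((-1 : ℤ) ^ (j + 1))

/-- The formula for the poles of the zeta functions of the powers of `A`, of all abelian varieties
isogenous to them, over all extensions of the field with `Q` elements. For every finite dimensional
complex vector space `V`, spanned by eigenvectors of the endomorphism `F` with eigenvalues among the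
roots of `g`, for all `s > 0` and `n`: the order at `n` of the zeta function of `F ^ s` is the opposite
of the dimension of the span of the products of `n` elements `y` of `⋀ ^ 2 V` with `F y = Q y`. -/
def PolesOfAllPowers (Q : ℕ) (g : ℤ[X]) : Prop :=
  ∀ (V : Type) [AddCommGroup V] [Module ℂ V] [FiniteDimensional ℂ V] (F : V →ₗ[ℂ] V),
    IsSpanned g F → ∀ s : ℕ, 0 < s → ∀ n : ℕ,
      meromorphicOrderAt (zetaFunction ((Q : ℝ) ^ s) (F ^ s)) (n : ℂ) =
        ((- (finrank ℂ (divisorProducts (Q : ℂ) F n) : ℤ) : ℤ) : WithTop ℤ)

end Pool.Agent.H857.SG
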