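import Pool.Agent.H857.SG.Defs
import Pool.Agent.H857.SG.Defs2

/-!
# Comparison of definitions
-/

set_option autoImplicit false

namespace Pool.Agent.H857.SG

open Polynomial Pool.Agent.H857.EF Pool.Agent.H857.WT

lemma hasGenericRealField_iff {q g : ℕ} {f : ℤ[X]} :
    HasGenericRealField q g f ↔ HasSymmetricGroup q g f := by
  constructor
  · rintro ⟨h, h1, h2, h3, h4, h5⟩
    refine ⟨h, h1, h2, ?_, h3, h4⟩
    rw [h5, Pool.Agent.W521.Frob.weil, h2]
  · rintro ⟨h, h1, h2, h3, h4, h5⟩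
    refine ⟨h, h1, h2, h4, h5, ?_⟩
    rw [h3, Pool.Agent.W521.Frob.weil, h2]

lemma generatedByWeilClasses_iff {m Q : ℕ} {g : ℤ[X]} :
    GeneratedByWeilClasses m Q g ↔ GeneratedInCodim m Q g := by
  have key : ∀ (V : Type) [AddCommGroup V] [Module ℂ V] [FiniteDimensional ℂ V]
      (F : V →ₗ[ℂ] V), {y : ExteriorAlgebra ℂ V | IsTateClass (Q : ℂ) F 1 y ∨
        IsTateClass (Q : ℂ) F m y} = {y : ExteriorAlgebra ℂ V |
        (y ∈ ⋀[ℂ]^2 V ∧ ExteriorAlgebra.map F y = (Q : ℂ) • y) ∨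
        (y ∈ ⋀[ℂ]^(2 * m) V ∧ ExteriorAlgebra.map F y = (Q : ℂ) ^ m • y)} := by
    intro V _ _ _ F
    ext y
    simp only [Set.mem_ofPred_eq, IsTateClass, mul_one, pow_one]
  constructor
  · intro h V _ _ _ F hF i s x hs h1 h2
    rw [← key]
    refine h V F hF i s x hs ⟨h1, ?_⟩
    rw [h2, ← pow_mul, ← pow_mul, mul_comm]
  · intro h V _ _ _ F hF i s x hs h1
    rw [key]
    refine h V F hF i s x hs h1.1 ?_
    rw [h1.2, ← pow_mul, ← pow_mul, mul_comm]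

lemma polesOfAllPowers_iff {Q : ℕ} {g : ℤ[X]} : PolesOfAllPowers Q g ↔ PolesOfPowers Q g := by
  have key : ∀ (V : Type) [AddCommGroup V] [Module ℂ V] (F : V →ₗ[ℂ] V),
      {v : V | ∃ _ : Unit, ∃ z : ℂ, aeval z g = 0 ∧ F v = z • v} =
        {v : V | ∃ z : ℂ, aeval z g = 0 ∧ F v = z • v} := by
    intro V _ _ F
    ext v
    exact ⟨fun ⟨_, h⟩ => h, fun h => ⟨(), h⟩⟩
  constructor
  · intro h V _ _ _ F hF
    refine h V F ?_
    rw [key] at hF
    exact hF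
  · intro h V _ _ _ F hF
    refine h V F ?_
    rw [key]
    exact hF

end Pool.Agent.H857.SG
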