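import Pool.Agent.H857.WT.Defs
import Pool.Graph.R_seed8.W521.Frob

/-!
# Abelian varieties over finite fields with generic real Frobenius fields: definitions
-/

set_option autoImplicit false

namespace Pool.Agent.H857.SG

open Polynomial

/-- The Weil polynomial `f` of degree `2 g` is `X ^ g h (X + q / X)` (`weil q h`) for an irreducible
polynomial `h` of degree `g` with integral coefficients whose Galois group over the field of rational
numbers has order `g!`. If `f` is the characteristic polynomial of the Frobenius endomorphism `π` of
the abelian variety `A`, then `h` is the minimal polynomial of `π + q / π`: the real field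
`ℚ(π + q / π)` has the degree `dim A`, and the Galois group of its Galois closure is the full
symmetric group. -/
def HasSymmetricGroup (q g : ℕ) (f : ℤ[X]) : Prop :=
  ∃ h : ℤ[X], h.Monic ∧ h.natDegree = g ∧ f = Pool.Agent.W521.Frob.weil q h ∧ Irreducible h ∧
    Nat.card (h.map (Int.castRingHom ℚ)).Gal = g.factorial

end Pool.Agent.H857.SG
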