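import Pool.Agent.H857.SG.Asm
import Pool.Agent.H857.SG.P.B1
import Pool.Agent.H857.SG.P.B1r
import Pool.Agent.H857.SG.P.B2
import Pool.Agent.H857.SG.P.B3
import Pool.Agent.H857.SG.P.B4
import Pool.Agent.H857.SG.P.B5
import Pool.Agent.H857.SG.P.B6
import Pool.Agent.H857.SG.P.B7a
import Pool.Agent.H857.SG.P.B7b
import Pool.Agent.H857.SG.P.B7c
import Pool.Agent.H857.SG.P.B8a
import Pool.Agent.H857.SG.P.B8b
import Pool.Agent.H857.SG.P.B8
import Pool.Agent.H857.SG.P.B9a
import Pool.Agent.H857.SG.P.B9b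
import Pool.Agent.H857.SG.P.B9c
import Pool.Agent.H857.SG.P.B9d
import Pool.Agent.H857.SG.P.B9e
import Pool.Agent.H857.WT.Full
import Pool.Agent.H857.EF.P.S3
import Pool.Agent.H857.EF.P.S13
import Pool.Agent.H857.EF.P.S17
import Pool.Agent.H857.EF.P.S18

/-!
# Abelian varieties over finite fields with generic real Frobenius fields: the statements together
-/

set_option autoImplicit false

namespace Pool.Agent.H857.SG

open Pool.Agent.H857.WT

theorem all_b3 : B3 := H294.SG.b3 H344.SGB2.b2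

theorem all_b8 : B8 := b8 H53.SGB8a.b8a H864.SGB8b.b8b

theorem all_b9c : B9c := H390.SGb9c.b9c H337.WT.w4a H115.WT.w4s H333.WT.w4b H307.SG.b9a
  H650.SG.b9b

theorem all_b9e : B9e := H295.SGb9e.b9e H870.WT5.w5 H358.SGB9d.b9d

end Pool.Agent.H857.SG
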